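import Pool.Agent.Helper6.IP.Basic

/-!
# Counting the instances with a given number of held nodes: packing
-/

set_option autoImplicit false

namespace Pool.Agent.Helper60.IP

open Pool.Agent.Helper6.IP

variable {G : Dag} {A : Type} [AddCommGroup A]

/-! ## First uses -/

theorem fo_exists {o : ℕ → G.Cell A ⊕ A} {I : G.Cell A → A} {v : G.V} (h : v ∈ HR o I) :
    ∃ t, FO o I v t := by
  classical
  obtain ⟨-, s, hs, m, hm, -⟩ := mem_HR.1 h
  rw [hs] at hm
  have h1 : ∃ t, o t ∈ Out I v := ⟨m, hm⟩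
  exact ⟨Nat.find h1, Nat.find_spec h1, fun j hj => Nat.find_min h1 hj⟩

theorem fo_unique {o : ℕ → G.Cell A ⊕ A} {I : G.Cell A → A} {v : G.V} {t t' : ℕ}
    (h : FO o I v t) (h' : FO o I v t') : t = t' := by
  rcases lt_trichotomy t t' with h1 | h1 | h1
  · exact absurd h.1 (h'.2 t h1)
  · exact h1
  · exact absurd h'.1 (h.2 t' h1)

theorem fo_cell {o : ℕ → G.Cell A ⊕ A} {I : G.Cell A → A} {v : G.V} {t : ℕ} (hv : v ≠ G.root)
    (h : FO o I v t) : ∃ e, G.tail e = v ∧ o t = Sum.inl (rc I (Sum.inr e)) ∧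
      ∀ j < t, o j ≠ Sum.inl (rc I (Sum.inr e)) := by
  obtain ⟨e, he, h1⟩ := out_of_ne hv h.1
  refine ⟨e, he, h1, fun j hj h2 => h.2 j hj ?_⟩
  rw [h2, ← h1]
  exact h.1

theorem fo_cnt_lt {o : ℕ → G.Cell A ⊕ A} {I : G.Cell A → A} {v : G.V} {t t' : ℕ} (hv : v ≠ G.root)
    (h : FO o I v t) (htt : t < t') : cnt o t < cnt o t' := by
  obtain ⟨e, -, h1, h2⟩ := fo_cell hv h
  exact cnt_lt htt h1 h2

theorem fo_inj {o : ℕ → G.Cell A ⊕ A} {I : G.Cell A → A} {v v' : G.V} {t t' : ℕ}
    (hv : v ≠ G.root) (hv' : v' ≠ G.root) (h : FO o I v t) (h' : FO o I v' t')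
    (hc : cnt o t = cnt o t') : v = v' := by
  rcases lt_trichotomy t t' with h1 | h1 | h1
  · exact absurd hc (fo_cnt_lt hv h h1).ne
  · subst h1
    obtain ⟨e, he, h2, -⟩ := fo_cell hv h
    obtain ⟨e', he', h2', -⟩ := fo_cell hv' h'
    rw [h2] at h2'
    have h3 := (rc_inr_inj (Sum.inl_injective h2')).1
    rw [← he, ← he', h3]
  · exact absurd hc (fo_cnt_lt hv' h' h1).ne'

/-! ## The number of marks -/

theorem marks_ncard (o : ℕ → G.Cell A ⊕ A) (I : G.Cell A → A) :
    (marks o I).ncard = (HR o I).card := by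
  classical
  have h : ∀ v : G.V, ∃ t, v ∈ HR o I → FO o I v t := by
    intro v
    by_cases hv : v ∈ HR o I
    · obtain ⟨t, ht⟩ := fo_exists hv
      exact ⟨t, fun _ => ht⟩
    · exact ⟨0, fun h => absurd h hv⟩
  choose ft hft using h
  have h1 : marks o I = (fun v => cnt o (ft v)) '' ((HR o I : Finset G.V) : Set G.V) := by
    ext j
    constructor
    · rintro ⟨v, hv, t, ht, hj⟩
      refine ⟨v, hv, ?_⟩
      rw [← hj]
      exact congrArg (cnt o) (fo_unique (hft v hv) ht)
    · rintro ⟨v, hv, hj⟩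
      exact ⟨v, hv, ft v, hft v hv, hj⟩
  rw [h1, Set.InjOn.ncard_image, Set.ncard_coe_finset]
  intro v hv v' hv' hvv
  exact fo_inj (mem_HR.1 hv).1 (mem_HR.1 hv').1 (hft v hv) (hft v' hv') hvv

theorem marks_lt [Finite (G.Cell A)] (o : ℕ → G.Cell A ⊕ A) (I : G.Cell A → A) {j : ℕ}
    (hj : j ∈ marks o I) : j < {c | ∃ j, o j = Sum.inl c}.ncard := by
  obtain ⟨v, hv, t, ht, rfl⟩ := hj
  refine (fo_cnt_lt (mem_HR.1 hv).1 ht (Nat.lt_succ_self t)).trans_le ?_
  refine Set.ncard_le_ncard (fun c hc => ?_) (Set.toFinite _)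
  obtain ⟨m, -, hm⟩ := hc
  exact ⟨m, hm⟩

/-! ## The number of erased cells -/

theorem last_exists (o : ℕ → G.Cell A ⊕ A) (I : G.Cell A → A) (num : G.Slot → ℕ)
    (hnum : Function.Injective num) (s₀ : G.Slot) :
    ∃ s, G.own s = G.own s₀ ∧ Last o I num s := by
  classical
  obtain ⟨s, hs, hmax⟩ := Finset.exists_max_image
    (Finset.univ.filter fun s : G.Slot => G.own s = G.own s₀)
    (fun s => (toLex (tm o (Sum.inl (rc I s)), num s) : ℕ∞ ×ₗ ℕ))
    ⟨s₀, by simp⟩
  rw [Finset.mem_filter] at hs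
  refine ⟨s, hs.2, fun s' hs' hne => ?_⟩
  have h1 := hmax s' (by rw [Finset.mem_filter]; exact ⟨Finset.mem_univ _, hs'.trans hs.2⟩)
  rw [Prod.Lex.toLex_le_toLex] at h1
  rcases h1 with h1 | ⟨h1, h2⟩
  · exact Or.inl h1
  · refine Or.inr ⟨h1, lt_of_le_of_ne h2 fun h3 => hne (hnum h3)⟩

theorem er_ncard (o : ℕ → G.Cell A ⊕ A) (I : G.Cell A → A) (num : G.Slot → ℕ)
    (hnum : Function.Injective num) : (Er o I num).ncard = (HR o I).card := by
  classical
  have h : ∀ v : G.V, v ∈ HR o I → ∃ s, G.own s = v ∧ Last o I num s := by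
    intro v hv
    obtain ⟨-, s, hs, -⟩ := mem_HR.1 hv
    obtain ⟨s', hs', h1⟩ := last_exists o I num hnum s
    exact ⟨s', hs'.trans hs, h1⟩
  by_cases hne : Nonempty G.Slot
  swap
  · have h1 : HR o I = ∅ := by
      rw [Finset.eq_empty_iff_forall_notMem]
      intro v hv
      obtain ⟨s, -⟩ := h v hv
      exact hne ⟨s⟩
    have h2 : Er o I num = ∅ := by
      rw [Set.eq_empty_iff_forall_notMem]
      rintro c ⟨s, -⟩
      exact hne ⟨s⟩
    rw [h1, h2]
    simp
  have h' : ∀ v : G.V, ∃ s, v ∈ HR o I → G.own s = v ∧ Last o I num s := by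
    intro v
    by_cases hv : v ∈ HR o I
    · obtain ⟨s, hs⟩ := h v hv
      exact ⟨s, fun _ => hs⟩
    · exact ⟨Classical.choice hne, fun h => absurd h hv⟩
  choose ls hls using h'
  have h1 : Er o I num = (fun v => rc I (ls v)) '' ((HR o I : Finset G.V) : Set G.V) := by
    ext c
    constructor
    · rintro ⟨s, hs, hl, rfl⟩
      refine ⟨G.own s, hs, ?_⟩
      exact congrArg (rc I) ((hls _ hs).2.unique hl (hls _ hs).1)
    · rintro ⟨v, hv, rfl⟩
      refine ⟨ls v, ?_, (hls v hv).2, rfl⟩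
      rw [(hls v hv).1]
      exact hv
  rw [h1, Set.InjOn.ncard_image, Set.ncard_coe_finset]
  intro v hv v' hv' hvv
  have h2 := rc_inj hvv
  rw [← (hls v hv).1, ← (hls v' hv').1, h2]

/-! ## Packing -/

/-- The instances which agree with `I` outside `S`. -/
def Sib {C A : Type} (I : C → A) (S : Set C) : Type := {K : C → A // ∀ c, c ∉ S → K c = I c}

theorem card_sib {C A : Type} [Finite C] [Finite A] (I : C → A) (S : Set C) :
    Nat.card A ^ S.ncard ≤ Nat.card (Sib I S) := by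
  classical
  have h1 : Nat.card (S → A) = Nat.card A ^ S.ncard := by
    rw [Nat.card_fun, Nat.card_coe_set_eq]
  rw [← h1]
  have : Finite (Sib I S) := by
    unfold Sib
    infer_instance
  refine Nat.card_le_card_of_injective (fun f : S → A =>
    (⟨fun c => if h : c ∈ S then f ⟨c, h⟩ else I c, fun c hc => dif_neg hc⟩ : Sib I S)) ?_
  intro f g hfg
  ext ⟨c, hc⟩
  have h2 := congrFun (congrArg Subtype.val hfg) c
  simpa [hc] using h2

theorem packing {C A : Type} [Finite C] [Finite A] (P : Set (C → A)) (S : (C → A) → Set C)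
    (M : (C → A) → Set ℕ) (T m : ℕ) (hS : ∀ I ∈ P, (S I).ncard = m)
    (hM : ∀ I ∈ P, (M I).ncard = m ∧ ∀ j ∈ M I, j < T)
    (hinj : ∀ I ∈ P, ∀ I' ∈ P, ∀ K : C → A, M I = M I' → (∀ c, c ∉ S I → K c = I c) →
      (∀ c, c ∉ S I' → K c = I' c) → I = I') :
    Nat.card P * Nat.card A ^ m ≤ T.choose m * Nat.card (C → A) := by
  classical
  have : ∀ I : P, Finite (Sib I.1 (S I.1)) := by
    intro I
    unfold Sib
    infer_instance
  have : Fintype P := Fintype.ofFinite P
  have h1 : Nat.card P * Nat.card A ^ m ≤ Nat.card (Σ I : P, Sib I.1 (S I.1)) := by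
    rw [Nat.card_sigma]
    calc Nat.card P * Nat.card A ^ m = ∑ I : P, Nat.card A ^ m := by
          rw [Finset.sum_const, Finset.card_univ, smul_eq_mul, Nat.card_eq_fintype_card]
      _ ≤ ∑ I : P, Nat.card (Sib I.1 (S I.1)) := by
          refine Finset.sum_le_sum fun I _ => ?_
          have h2 := card_sib I.1 (S I.1)
          rwa [hS I.1 I.2] at h2
  refine h1.trans ?_
  have hsub : ∀ I : P, (Finset.range T).filter (fun j => j ∈ M I.1) ∈
      Finset.powersetCard m (Finset.range T) := by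
    intro I
    rw [Finset.mem_powersetCard]
    refine ⟨Finset.filter_subset _ _, ?_⟩
    rw [← (hM I.1 I.2).1, ← Set.ncard_coe_finset]
    congr 1
    ext j
    simp only [Finset.coe_filter, Finset.mem_range, Set.mem_ofPred_eq]
    exact ⟨fun h => h.2, fun h => ⟨(hM I.1 I.2).2 j h, h⟩⟩
  have h3 : Nat.card ({F // F ∈ Finset.powersetCard m (Finset.range T)} × (C → A)) =
      T.choose m * Nat.card (C → A) := by
    rw [Nat.card_prod, Nat.card_eq_fintype_card, Fintype.card_coe, Finset.card_powersetCard,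
      Finset.card_range]
  rw [← h3]
  refine Nat.card_le_card_of_injective (fun x : (Σ I : P, Sib I.1 (S I.1)) =>
    ((⟨_, hsub x.1⟩ : {F // F ∈ Finset.powersetCard m (Finset.range T)}), x.2.1)) ?_
  rintro ⟨I, K⟩ ⟨I', K'⟩ hxy
  have h4 : (Finset.range T).filter (fun j => j ∈ M I.1) =
      (Finset.range T).filter (fun j => j ∈ M I'.1) := congrArg (fun y => (y.1 : Finset ℕ)) hxy
  have h5 : K.1 = K'.1 := congrArg Prod.snd hxy
  have h6 : M I.1 = M I'.1 := by
    ext j
    constructor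
    · intro hj
      have h7 : j ∈ (Finset.range T).filter (fun j => j ∈ M I.1) := by
        rw [Finset.mem_filter, Finset.mem_range]
        exact ⟨(hM I.1 I.2).2 j hj, hj⟩
      rw [h4, Finset.mem_filter] at h7
      exact h7.2
    · intro hj
      have h7 : j ∈ (Finset.range T).filter (fun j => j ∈ M I'.1) := by
        rw [Finset.mem_filter, Finset.mem_range]
        exact ⟨(hM I'.1 I'.2).2 j hj, hj⟩
      rw [← h4, Finset.mem_filter] at h7
      exact h7.2
  have h7 : I = I' := by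
    apply Subtype.ext
    refine hinj I.1 I.2 I'.1 I'.2 K.1 h6 K.2 ?_
    rw [h5]
    exact K'.2
  subst h7
  have h8 : K = K' := Subtype.ext h5
  rw [h8]

variable {N : ℕ}

/-- The count, from the lockstep lemma. -/
theorem count_of_lockstep [Fintype A] (B : BP (G.Cell A) A N) (q : Fin N) (T m : ℕ)
    (hlock : ∀ (num : G.Slot → ℕ), Function.Injective num → ∀ I I' K : G.Cell A → A,
      marks (obs B I q) I = marks (obs B I' q) I' →
      (∀ c, c ∉ Er (obs B I q) I num → K c = I c) →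
      (∀ c, c ∉ Er (obs B I' q) I' num → K c = I' c) → I = I') :
    Nat.card {I : G.Cell A → A // (HR (obs B I q) I).card = m ∧
      {c | ∃ j, obs B I q j = Sum.inl c}.ncard ≤ T} * Fintype.card A ^ m ≤
      T.choose m * Nat.card (G.Cell A → A) := by
  classical
  obtain ⟨num, hnum⟩ : ∃ num : G.Slot → ℕ, Function.Injective num :=
    ⟨fun s => (Fintype.equivFin G.Slot s : ℕ), fun s s' h =>
      (Fintype.equivFin G.Slot).injective (Fin.val_injective h)⟩
  rw [← Nat.card_eq_fintype_card]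
  refine packing {I : G.Cell A → A | (HR (obs B I q) I).card = m ∧
      {c | ∃ j, obs B I q j = Sum.inl c}.ncard ≤ T} (fun I => Er (obs B I q) I num)
    (fun I => marks (obs B I q) I) T m ?_ ?_ ?_
  · intro I hI
    exact (er_ncard _ _ _ hnum).trans hI.1
  · intro I hI
    refine ⟨(marks_ncard _ _).trans hI.1, fun j hj => ?_⟩
    exact (marks_lt _ _ hj).trans_le hI.2
  · intro I _ I' _ K h1 h2 h3
    exact hlock num hnum I I' K h1 h2 h3

end Pool.Agent.Helper60.IP
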