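import Pool.Agent.Helper60.IP.Count
import Pool.Agent.Helper6.IP.Lockstep

/-!
# The count of the instances with held nodes, and the premature uses
-/

set_option autoImplicit false

namespace Pool.Agent.Helper60.IP

open Pool.Agent.Helper6.IP

variable {G : Dag} {A : Type} [AddCommGroup A] {N : ℕ}

/-- IP-C. -/
theorem count_marks [Fintype A] (B : BP (G.Cell A) A N) (q : Fin N) (T m : ℕ) :
    Nat.card {I : G.Cell A → A // (HR (obs B I q) I).card = m ∧
      {c | ∃ j, obs B I q j = Sum.inl c}.ncard ≤ T} * Fintype.card A ^ m ≤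
      T.choose m * Nat.card (G.Cell A → A) :=
  count_of_lockstep B q T m fun num _ I I' K hm h h' => lockstep B q num I I' K hm h h'

/-- The time `t` is the first time when the value of a node is used (in the table of the edge `e`) before all right
cells of the node are observed; `s` is the first slot of the node whose right cell is not yet observed. -/
structure First (o : ℕ → G.Cell A ⊕ A) (I : G.Cell A → A) (num : G.Slot → ℕ) (t : ℕ) (e : G.E)
    (s : G.Slot) : Prop where
  use : o t = Sum.inl (rc I (Sum.inr e))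
  own : G.own s = G.tail e
  unseen : ∀ j ≤ t, o j ≠ Sum.inl (rc I s)
  least : ∀ s', G.own s' = G.tail e → (∀ j ≤ t, o j ≠ Sum.inl (rc I s')) → num s ≤ num s'
  before : ∀ j < t, ∀ e', o j = Sum.inl (rc I (Sum.inr e')) → ∀ s', G.own s' = G.tail e' →
    ∃ i ≤ j, o i = Sum.inl (rc I s')

theorem first_exists {o : ℕ → G.Cell A ⊕ A} {I : G.Cell A → A} (num : G.Slot → ℕ) {s₀ : G.Slot}
    (h₀ : G.own s₀ ≠ G.root) (hb : Blk o I s₀) : ∃ t e s, First o I num t e s := by
  classical
  obtain ⟨m, hm, hm'⟩ := hb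
  obtain ⟨e₀, he₀, hm⟩ := out_of_ne h₀ hm
  have h1 : ∃ t, ∃ e s, o t = Sum.inl (rc I (Sum.inr e)) ∧ G.own s = G.tail e ∧
      ∀ j ≤ t, o j ≠ Sum.inl (rc I s) := ⟨m, e₀, s₀, hm, he₀.symm, hm'⟩
  obtain ⟨e, s, h2, h3, h4⟩ := Nat.find_spec h1
  obtain ⟨s', hs', hmin⟩ := Finset.exists_min_image
    (Finset.univ.filter fun s : G.Slot => G.own s = G.tail e ∧
      ∀ j ≤ Nat.find h1, o j ≠ Sum.inl (rc I s)) num ⟨s, by
        rw [Finset.mem_filter]
        exact ⟨Finset.mem_univ _, h3, h4⟩⟩
  rw [Finset.mem_filter] at hs'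
  refine ⟨Nat.find h1, e, s', h2, hs'.2.1, hs'.2.2, fun s'' h5 h6 => ?_, fun j hj e' h5 s'' h6 => ?_⟩
  · exact hmin s'' (by rw [Finset.mem_filter]; exact ⟨Finset.mem_univ _, h5, h6⟩)
  · by_contra hc
    push Not at hc
    exact Nat.find_min h1 hj ⟨e', s'', h5, h6, hc⟩

theorem First.new {o : ℕ → G.Cell A ⊕ A} {I : G.Cell A → A} {num : G.Slot → ℕ} {t : ℕ} {e : G.E}
    {s : G.Slot} (h : First o I num t e s) : ∀ j < t, o j ≠ Sum.inl (rc I (Sum.inr e)) := by
  intro j hj h1
  obtain ⟨i, hi, h2⟩ := h.before j hj e h1 s h.own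
  exact h.unseen i (by omega) h2

theorem First.cnt_lt {o o' : ℕ → G.Cell A ⊕ A} {I : G.Cell A → A} {num : G.Slot → ℕ} {t t' : ℕ}
    {e : G.E} {s : G.Slot} (h : First o I num t e s) (ho : ∀ j ≤ t, o j = o' j) (htt : t < t') :
    cnt o t < cnt o' t' := by
  rw [cnt_congr (o' := o') fun j hj => ho j hj.le]
  refine Pool.Agent.Helper6.IP.cnt_lt htt ((ho t le_rfl).symm.trans h.use) fun j hj h1 => ?_
  exact h.new j hj ((ho j hj.le).trans h1)

/-- Changing the content of the right cell of a slot of a node does not change the values below. -/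
theorem val_below {I K : G.Cell A → A} {s : G.Slot} (hK : ∀ c, c ≠ rc I s → K c = I c) :
    ∀ (r : ℕ) (u : G.V), G.rk u < r → G.rk u < G.rk (G.own s) → G.val K u = G.val I u := by
  intro r
  induction r with
  | zero => exact fun u hu => absurd hu (by omega)
  | succ r ih =>
    intro u hu hus
    rw [Pool.Agent.Helper6.IP.val_eq, Pool.Agent.Helper6.IP.val_eq]
    refine Finset.sum_congr rfl fun x hx => ?_
    have hx' : G.own x = u := by
      classical
      exact (Finset.mem_filter.1 hx).2
    have h1 : rc K x = rc I x := by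
      refine rc_congr fun e he => ?_
      have h2 := G.lt e
      have h3 : G.head e = u := by rw [← hx', he]; rfl
      rw [h3] at h2
      exact ih _ (by omega) (by omega)
    rw [h1]
    refine hK _ fun h2 => ?_
    have h3 := rc_inj h2
    rw [h3] at hx'
    rw [hx'] at hus
    exact lt_irrefl _ hus

theorem rc_below {I K : G.Cell A → A} {s x : G.Slot} (hK : ∀ c, c ≠ rc I s → K c = I c)
    (hx : G.own x = G.own s) : rc K x = rc I x := by
  refine rc_congr fun e he => val_below hK (G.rk (G.tail e) + 1) _ (by omega) ?_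
  have h1 := G.lt e
  have h2 : G.head e = G.own s := by rw [← hx, he]; rfl
  rw [h2] at h1
  exact h1

omit [AddCommGroup A] in
theorem run_agree {C : Type} {B : BP C A N} {q : Fin N} {I K : C → A} {c₁ : C}
    (hK : ∀ c, c ≠ c₁ → K c = I c) {t : ℕ} (h : ∀ j < t, obs B I q j ≠ Sum.inl c₁) :
    ∀ j ≤ t, (B.step I)^[j] q = (B.step K)^[j] q := by
  intro j
  induction j with
  | zero => exact fun _ => rfl
  | succ j ih =>
    intro hj
    refine run_succ (ih (by omega)) fun c hc => ?_
    refine (hK c fun h1 => h j (by omega) ?_).symm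
    rw [hc, h1]

/-- Two instances with the same number of the first premature use which agree with a third one outside the cell of
the slot. -/
theorem first_inj {B : BP (G.Cell A) A N} {q : Fin N} {num : G.Slot → ℕ}
    (hnum : Function.Injective num) {I I' K : G.Cell A → A} {t t' : ℕ} {e e' : G.E} {s s' : G.Slot}
    (h : First (obs B I q) I num t e s) (h' : First (obs B I' q) I' num t' e' s')
    (hc : cnt (obs B I q) t = cnt (obs B I' q) t') (hK : ∀ c, c ≠ rc I s → K c = I c)
    (hK' : ∀ c, c ≠ rc I' s' → K c = I' c) : I = I' := by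
  have h1 : ∀ j ≤ t, obs B I q j = obs B K q j := fun j hj =>
    obs_congr (run_agree hK (fun i hi => h.unseen i hi.le) j hj)
  have h1' : ∀ j ≤ t', obs B I' q j = obs B K q j := fun j hj =>
    obs_congr (run_agree hK' (fun i hi => h'.unseen i hi.le) j hj)
  have h2 : t = t' := by
    rcases lt_trichotomy t t' with h3 | h3 | h3
    · exfalso
      have h4 := h.cnt_lt (o' := obs B I' q) (fun j hj => (h1 j hj).trans (h1' j (by omega)).symm) h3
      omega
    · exact h3
    · exfalso
      have h4 := h'.cnt_lt (o' := obs B I q) (fun j hj => (h1' j hj).trans (h1 j (by omega)).symm) h3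
      omega
  subst h2
  have ho : ∀ j ≤ t, obs B I q j = obs B I' q j := fun j hj => (h1 j hj).trans (h1' j hj).symm
  have h3 : rc I (Sum.inr e) = rc I' (Sum.inr e') :=
    Sum.inl_injective (h.use.symm.trans ((ho t le_rfl).trans h'.use))
  obtain ⟨h4, h5⟩ := rc_inr_inj h3
  subst h4
  have hss : G.own s' = G.own s := h'.own.trans h.own.symm
  have hrc : ∀ x, G.own x = G.own s → rc I x = rc I' x := fun x hx =>
    (rc_below hK hx).symm.trans (rc_below hK' (hx.trans hss.symm))
  have h6 : s = s' := by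
    refine hnum (le_antisymm (h.least s' h'.own fun j hj => ?_) (h'.least s h.own fun j hj => ?_))
    · rw [hrc s' hss, ho j hj]
      exact h'.unseen j hj
    · rw [← hrc s rfl, ← ho j hj]
      exact h.unseen j hj
  subst h6
  have h7 : ∀ c, c ≠ rc I s → I c = I' c := by
    intro c hc
    rw [← hK c hc]
    refine hK' c ?_
    rw [← hrc s rfl]
    exact hc
  funext c
  by_cases hc1 : c = rc I s
  · classical
    have hval : G.val I (G.own s) = G.val I' (G.own s) := by
      rw [h.own]
      exact h5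
    rw [Pool.Agent.Helper6.IP.val_eq, Pool.Agent.Helper6.IP.val_eq] at hval
    have hmem : s ∈ Finset.univ.filter (fun s' => G.own s' = G.own s) := by simp
    rw [← Finset.add_sum_erase _ _ hmem, ← Finset.add_sum_erase _ _ hmem] at hval
    have hsum : ∑ x ∈ (Finset.univ.filter (fun s' => G.own s' = G.own s)).erase s, I (rc I x) =
        ∑ x ∈ (Finset.univ.filter (fun s' => G.own s' = G.own s)).erase s, I' (rc I' x) :=
      Finset.sum_congr rfl fun x hx => by
        have hx1 := (Finset.mem_filter.1 (Finset.mem_of_mem_erase hx)).2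
        rw [← hrc x hx1]
        exact h7 _ fun hx2 => Finset.ne_of_mem_erase hx (rc_inj hx2)
    rw [hsum] at hval
    have h8 := add_right_cancel hval
    rw [← hrc s rfl] at h8
    rw [hc1]
    exact h8
  · exact h7 c hc1

/-- IP-Z. -/
theorem zero_bound [Fintype A] (B : BP (G.Cell A) A N) (q : Fin N) (T : ℕ) :
    Nat.card {I : G.Cell A → A // (∃ s, G.own s ≠ G.root ∧ Blk (obs B I q) I s) ∧
      {c | ∃ j, obs B I q j = Sum.inl c}.ncard ≤ T} * Fintype.card A ≤
      T * Nat.card (G.Cell A → A) := by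
  classical
  obtain ⟨num, hnum⟩ : ∃ num : G.Slot → ℕ, Function.Injective num :=
    ⟨fun s => (Fintype.equivFin G.Slot s : ℕ), fun s s' h =>
      (Fintype.equivFin G.Slot).injective (Fin.val_injective h)⟩
  have hex : ∀ I : G.Cell A → A, ∃ (S : Set (G.Cell A)) (M : Set ℕ),
      (∃ s, G.own s ≠ G.root ∧ Blk (obs B I q) I s) → ∃ t e s, First (obs B I q) I num t e s ∧
        S = {rc I s} ∧ M = {cnt (obs B I q) t} := by
    intro I
    by_cases hI : ∃ s, G.own s ≠ G.root ∧ Blk (obs B I q) I s
    · obtain ⟨s₀, h0, hb⟩ := hI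
      obtain ⟨t, e, s, h⟩ := first_exists num h0 hb
      exact ⟨{rc I s}, {cnt (obs B I q) t}, fun _ => ⟨t, e, s, h, rfl, rfl⟩⟩
    · exact ⟨∅, ∅, fun h => absurd h hI⟩
  choose S M hSM using hex
  have key := packing {I : G.Cell A → A | (∃ s, G.own s ≠ G.root ∧ Blk (obs B I q) I s) ∧
      {c | ∃ j, obs B I q j = Sum.inl c}.ncard ≤ T} S M T 1 ?_ ?_ ?_
  · rw [pow_one, Nat.choose_one_right] at key
    rw [← Nat.card_eq_fintype_card]
    exact key
  · intro I hI
    obtain ⟨t, e, s, -, h1, -⟩ := hSM I hI.1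
    rw [h1, Set.ncard_singleton]
  · intro I hI
    obtain ⟨t, e, s, h, -, h1⟩ := hSM I hI.1
    rw [h1]
    refine ⟨Set.ncard_singleton _, fun j hj => ?_⟩
    rw [Set.mem_singleton_iff] at hj
    subst hj
    refine lt_of_lt_of_le ?_ hI.2
    refine (Pool.Agent.Helper6.IP.cnt_lt (Nat.lt_succ_self t) h.use h.new).trans_le ?_
    refine Set.ncard_le_ncard (fun c hc => ?_) (Set.toFinite _)
    obtain ⟨m, -, hm⟩ := hc
    exact ⟨m, hm⟩
  · intro I hI I' hI' K hM hK hK'
    obtain ⟨t, e, s, h, h1, h2⟩ := hSM I hI.1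
    obtain ⟨t', e', s', h', h1', h2'⟩ := hSM I' hI'.1
    rw [h2, h2', Set.singleton_eq_singleton_iff] at hM
    refine first_inj hnum h h' hM (fun c hc => hK c ?_) (fun c hc => hK' c ?_)
    · rw [h1]
      exact hc
    · rw [h1']
      exact hc

end Pool.Agent.Helper60.IP
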